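import Pool.Agent.Q20.AS.MainD

set_option autoImplicit false

/-!
# One residue class which is bad for many moduli at the same time

Chowla's conjecture: `p(d, a) < d ^ (1 + ε)`, where `p(d, a)` is the least prime of the form `a + k d`, `k ≥ 0`.

Let `C`, `δ > 0`, `K` be given. For every large `D`, EVERY set `S` of pairs `(d, k)` of a divisor `d` of `D` and an integer
`|k| ≤ D ^ K` with `|S| ≤ C (φ(D) / D) log D`, and every `y ≤ D ^ K` there is an `a` prime to `D` in `[y, y + D ^ δ]` such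
that all the numbers `a + k d`, `(d, k) ∈ S`, have a prime factor `p ≤ D ^ δ` with `p ∤ D`, `p < |a + k d|`.

In particular, for every `T` and every set `M` of divisors `d > D ^ δ + 1` of `D` with
`|M| (T + 1) ≤ C (φ(D) / D) log D` there is ONE `a ≤ D ^ δ + 1` prime to `D`, smaller than all `d ∈ M`, with `p(d, a) > T d`
for ALL the moduli `d ∈ M`.

Proof: `Pool.Agent.Q20.AS.formsD`, after the square weights of the project AC of the starting repository (helper410 and the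
helpers of that project).
-/

namespace Pool.Agent.Results.MP_42948a_nt.CommonResidues

open Filter

theorem pairs (C δ : ℝ) (K : ℕ) (hδ : 0 < δ) : ∀ᶠ D : ℕ in atTop, ∀ S : Finset (ℕ × ℤ),
    (∀ s ∈ S, s.1 ∣ D ∧ |s.2| ≤ (D : ℤ) ^ K) →
    (S.card : ℝ) ≤ C * ((D.totient : ℝ) / D) * Real.log D →
    ∀ y : ℕ, y ≤ D ^ K → ∃ a : ℕ, y ≤ a ∧ (a : ℝ) ≤ y + (D : ℝ) ^ δ ∧ Nat.Coprime a D ∧
      ∀ s ∈ S, ∃ p : ℕ, p.Prime ∧ ¬ p ∣ D ∧ (p : ℝ) ≤ (D : ℝ) ^ δ ∧ (p : ℤ) ∣ a + s.2 * s.1 ∧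
        (p : ℤ) < |(a : ℤ) + s.2 * s.1| := by
  classical
  obtain ⟨X₀, hX₀⟩ := Pool.Agent.Q20.AS.formsD C δ (K + 1) hδ
  filter_upwards [eventually_ge_atTop X₀, eventually_ge_atTop 2] with m hm hm2 J hJ hJc y hy
  have hm0 : (0 : ℝ) < m := by exact_mod_cast (by omega : 0 < m)
  have hA : ∀ l ∈ J.image (fun s : ℕ × ℤ => ((1 : ℕ), s.2 * (s.1 : ℤ))), 1 ≤ l.1 ∧
      (∀ p : ℕ, p.Prime → p ∣ l.1 → p ∣ m) ∧ l.1 ≤ m ^ (K + 1) ∧ |l.2| ≤ (m : ℤ) ^ (K + 1) := by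
    intro l hl
    rw [Finset.mem_image] at hl
    obtain ⟨j, hj, rfl⟩ := hl
    refine ⟨le_rfl, fun p hp hd => ?_, Nat.one_le_pow _ _ (by omega), ?_⟩
    · exact absurd (Nat.dvd_one.mp hd) hp.one_lt.ne'
    · simp only
      rw [abs_mul, pow_succ]
      refine mul_le_mul (hJ j hj).2 ?_ (abs_nonneg _) (by positivity)
      rw [abs_of_nonneg (by positivity)]
      exact_mod_cast Nat.le_of_dvd (by omega) (hJ j hj).1
  have hB : ((J.image (fun s : ℕ × ℤ => ((1 : ℕ), s.2 * (s.1 : ℤ)))).card : ℝ) * m ≤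
      C * m.totient * Real.log m := by
    have h6 : ((J.image (fun s : ℕ × ℤ => ((1 : ℕ), s.2 * (s.1 : ℤ)))).card : ℝ) ≤ J.card := by
      exact_mod_cast Finset.card_image_le
    calc ((J.image (fun s : ℕ × ℤ => ((1 : ℕ), s.2 * (s.1 : ℤ)))).card : ℝ) * m ≤ J.card * m :=
          mul_le_mul_of_nonneg_right h6 hm0.le
      _ ≤ (C * ((m.totient : ℝ) / m) * Real.log m) * m := mul_le_mul_of_nonneg_right hJc hm0.le
      _ = C * m.totient * Real.log m := by field_simp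
  obtain ⟨c, h1, h2, h3, -, h5⟩ := hX₀ m hm m (by omega) (Nat.le_self_pow (by omega) m)
    (J.image (fun s : ℕ × ℤ => ((1 : ℕ), s.2 * (s.1 : ℤ)))) hA hB y
    (hy.trans (Nat.pow_le_pow_right (by omega) (by omega))) ∅ (by simp; positivity)
  refine ⟨c, h1, h2, h3, fun j hj => ?_⟩
  obtain ⟨p, a1, a2, a3, a4, a5⟩ := h5 _ (Finset.mem_image_of_mem _ hj)
  simp only [Nat.cast_one, one_mul] at a4 a5
  exact ⟨p, a1, a2, a3, a4, a5⟩

/-- One residue `a` with `p(d, a) > T d` for all moduli `d` of `M`. -/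
theorem moduli (C δ : ℝ) (hδ : 0 < δ) : ∀ᶠ D : ℕ in atTop, ∀ (M : Finset ℕ) (T : ℕ),
    (∀ d ∈ M, d ∣ D ∧ (D : ℝ) ^ δ + 1 < d) →
    (M.card : ℝ) * (T + 1) ≤ C * ((D.totient : ℝ) / D) * Real.log D →
    ∃ a : ℕ, 1 ≤ a ∧ (a : ℝ) ≤ 1 + (D : ℝ) ^ δ ∧ Nat.Coprime a D ∧
      ∀ d ∈ M, a < d ∧ ∀ k : ℕ, (a + k * d).Prime → T * d < a + k * d := by
  classical
  filter_upwards [pairs C δ (Nat.ceil (max C 0) + 2) hδ, eventually_ge_atTop 2] with D hD hD2 M T hM hT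
  have hD0 : (0 : ℝ) < D := by exact_mod_cast (by omega : 0 < D)
  rcases M.eq_empty_or_nonempty with hM0 | hM0
  · obtain ⟨a, h1, h2, h3, -⟩ := hD ∅ (by simp) (by
      subst hM0
      simpa using hT) 1 (Nat.one_le_pow _ _ (by omega))
    exact ⟨a, h1, by simpa using h2, h3, by simp [hM0]⟩
  have hTle : (T : ℤ) ≤ (D : ℤ) ^ (Nat.ceil (max C 0) + 2) := by
    have h1 : (1 : ℝ) ≤ M.card := by exact_mod_cast hM0.card_pos
    have h2 : (T : ℝ) + 1 ≤ C * ((D.totient : ℝ) / D) * Real.log D := by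
      refine le_trans ?_ hT
      exact le_mul_of_one_le_left (by positivity) h1
    have h3 : (D.totient : ℝ) / D ≤ 1 := by
      rw [div_le_one hD0]
      exact_mod_cast Nat.totient_le D
    have h4 : Real.log D ≤ D := (Real.log_le_sub_one_of_pos hD0).trans (by linarith)
    have h5 : 0 ≤ Real.log (D : ℝ) := Real.log_natCast_nonneg D
    have h6 : C * ((D.totient : ℝ) / D) * Real.log D ≤ (Nat.ceil (max C 0) : ℝ) * 1 * D := by
      have h7 : C ≤ (Nat.ceil (max C 0) : ℝ) := (le_max_left C 0).trans (Nat.le_ceil _)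
      calc C * ((D.totient : ℝ) / D) * Real.log D ≤
            (Nat.ceil (max C 0) : ℝ) * ((D.totient : ℝ) / D) * Real.log D := by gcongr
        _ ≤ (Nat.ceil (max C 0) : ℝ) * 1 * D := by gcongr
    have h8 : (Nat.ceil (max C 0) : ℝ) ≤ (D : ℝ) ^ (Nat.ceil (max C 0)) := by
      have h9 : Nat.ceil (max C 0) < D ^ (Nat.ceil (max C 0)) := Nat.lt_pow_self (by omega)
      exact_mod_cast h9.le
    have h10 : (T : ℝ) ≤ (D : ℝ) ^ (Nat.ceil (max C 0) + 2) := by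
      calc (T : ℝ) ≤ (Nat.ceil (max C 0) : ℝ) * 1 * D := by linarith
        _ ≤ (D : ℝ) ^ (Nat.ceil (max C 0)) * 1 * D := by gcongr
        _ = (D : ℝ) ^ (Nat.ceil (max C 0) + 1) := by ring
        _ ≤ (D : ℝ) ^ (Nat.ceil (max C 0) + 2) :=
            pow_le_pow_right₀ (by exact_mod_cast (by omega : 1 ≤ D)) (by omega)
    exact_mod_cast h10
  have hA : ∀ s ∈ (M ×ˢ Finset.range (T + 1)).image (fun s : ℕ × ℕ => (s.1, (s.2 : ℤ))),
      s.1 ∣ D ∧ |s.2| ≤ (D : ℤ) ^ (Nat.ceil (max C 0) + 2) := by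
    intro s hs
    rw [Finset.mem_image] at hs
    obtain ⟨t, ht, rfl⟩ := hs
    rw [Finset.mem_product, Finset.mem_range] at ht
    refine ⟨(hM _ ht.1).1, ?_⟩
    simp only
    rw [abs_of_nonneg (by positivity)]
    have : (t.2 : ℤ) ≤ T := by exact_mod_cast (by omega : t.2 ≤ T)
    exact this.trans hTle
  have hB : (((M ×ˢ Finset.range (T + 1)).image (fun s : ℕ × ℕ => (s.1, (s.2 : ℤ)))).card : ℝ) ≤
      C * ((D.totient : ℝ) / D) * Real.log D := by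
    refine le_trans ?_ hT
    have h5 : ((M ×ˢ Finset.range (T + 1)).image (fun s : ℕ × ℕ => (s.1, (s.2 : ℤ)))).card ≤
        M.card * (T + 1) := by
      refine Finset.card_image_le.trans ?_
      rw [Finset.card_product, Finset.card_range]
    exact_mod_cast h5
  obtain ⟨a, h1, h2, h3, h4⟩ := hD _ hA hB 1 (Nat.one_le_pow _ _ (by omega))
  refine ⟨a, h1, by simpa using h2, h3, fun d hd => ?_⟩
  have had : a < d := by
    have := (hM d hd).2
    push_cast at h2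
    have h5 : (a : ℝ) < d := by linarith
    exact_mod_cast h5
  refine ⟨had, fun k hk => ?_⟩
  by_contra hcon
  push Not at hcon
  have hkT : k ≤ T := by
    by_contra hk2
    push Not at hk2
    have h6 : (T + 1) * d ≤ k * d := Nat.mul_le_mul_right d hk2
    have h7 : (T + 1) * d = T * d + d := by ring
    omega
  obtain ⟨p, a1, -, -, a4, a5⟩ := h4 (d, (k : ℤ)) (by
    rw [Finset.mem_image]
    exact ⟨(d, k), by simp [hd]; omega, rfl⟩)
  simp only at a4 a5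
  have e : (a : ℤ) + (k : ℤ) * (d : ℤ) = ((a + k * d : ℕ) : ℤ) := by push_cast; ring
  rw [e] at a4 a5
  rw [abs_of_nonneg (by positivity)] at a5
  have h8 : p ∣ a + k * d := by exact_mod_cast a4
  have h9 : p < a + k * d := by exact_mod_cast a5
  rcases (Nat.dvd_prime hk).mp h8 with h | h
  · exact a1.one_lt.ne' h
  · omega

theorem result :
    (∀ (C δ : ℝ) (K : ℕ), 0 < δ → ∀ᶠ D : ℕ in atTop, ∀ S : Finset (ℕ × ℤ),
      (∀ s ∈ S, s.1 ∣ D ∧ |s.2| ≤ (D : ℤ) ^ K) →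
      (S.card : ℝ) ≤ C * ((D.totient : ℝ) / D) * Real.log D →
      ∀ y : ℕ, y ≤ D ^ K → ∃ a : ℕ, y ≤ a ∧ (a : ℝ) ≤ y + (D : ℝ) ^ δ ∧ Nat.Coprime a D ∧
        ∀ s ∈ S, ∃ p : ℕ, p.Prime ∧ ¬ p ∣ D ∧ (p : ℝ) ≤ (D : ℝ) ^ δ ∧ (p : ℤ) ∣ a + s.2 * s.1 ∧
          (p : ℤ) < |(a : ℤ) + s.2 * s.1|) ∧
    ∀ C δ : ℝ, 0 < δ → ∀ᶠ D : ℕ in atTop, ∀ (M : Finset ℕ) (T : ℕ),
      (∀ d ∈ M, d ∣ D ∧ (D : ℝ) ^ δ + 1 < d) →
      (M.card : ℝ) * (T + 1) ≤ C * ((D.totient : ℝ) / D) * Real.log D →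
      ∃ a : ℕ, 1 ≤ a ∧ (a : ℝ) ≤ 1 + (D : ℝ) ^ δ ∧ Nat.Coprime a D ∧
        ∀ d ∈ M, a < d ∧ ∀ k : ℕ, (a + k * d).Prime → T * d < a + k * d :=
  ⟨pairs, moduli⟩

end Pool.Agent.Results.MP_42948a_nt.CommonResidues
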