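import Pool.Agent.Q46.SL.Tools
import Pool.Agent.Q46.SL.Fermat

/-!
# Almost primes `η x + ω` below `η ^ (1 + δ)` in all residue classes, for integers and their Fermat quotients

Chowla's conjecture asks for primes `η x + ω` with `x ≤ η ^ δ` in all residue classes `ω` prime to `η`. For all `η`, `ω` of
absolute value at most `p ^ (2 B)` we find many `x < p ^ 2` such that `η x + ω` has at most `R` prime factors; take `p ^ 2`
about `η ^ δ` and `B ≥ 1 / δ`. The same holds for the Fermat quotients of these `x` simultaneously.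

Let `p` be a large prime. For all intervals `[A1, A1 + N1)` in `[0, p²)` and `[A2, A2 + N2)` in `[0, p)` with `N1 N2 ≥ p ^ (2 + ε)` there
are many integers `x` in the first interval whose Fermat quotient `(x ^ (p - 1) - 1) / p mod p` lies in the second, and such that
BOTH `x` and its Fermat quotient have the property. Here the property is: `η x + ω` has at most `R` prime factors, all larger than `p ^ (2 κ)`.

In addition the numbers avoid arbitrary residue classes, at most `m` classes `E q` modulo each prime `q ≤ z`, as long as there is no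
local obstruction; `m = 0` is the case without classes. The exponent `κ`, the number `R` and the constant `cc` do not depend on the
classes.

Design and proof: helper46 (modules `Pool.Agent.Q46.SV.*`, `Pool.Agent.Q46.SL.*`): the vectors of the residues in question are
equidistributed modulo all small integers with a power saving, by bounds for exponential sums; the fundamental lemma of the
sieve is applied to the vectors.
-/

set_option autoImplicit false

namespace Pool.Agent.Results.MP_42948a_nt.FermatQuotients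

open Finset Polynomial
open Pool.Agent.Q46.SL hiding Almost

/-- `n` is not zero and has at most `R` prime factors (counted with multiplicity), all larger than `z` -/
def Almost (z : ℝ) (R : ℕ) (n : ℤ) : Prop :=
  n ≠ 0 ∧ n.natAbs.primeFactorsList.length ≤ R ∧ ∀ q : ℕ, q.Prime → (q : ℤ) ∣ n → z < q

/-- `x` is positive, `η x + ω` has at most `R` prime factors, all larger than `z`, and `x` avoids the classes `E q`, `q ≤ z` -/
def Good (η ω : ℤ) (z : ℝ) (R : ℕ) (E : ℕ → Finset ℕ) (x : ℤ) : Prop :=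
  0 < x ∧ Almost z R (η * x + ω) ∧ ∀ q : ℕ, q.Prime → (q : ℝ) ≤ z → (x % q).toNat ∉ E q

/-- `E q` has at most `m` elements, and some residue `a` outside `E q` makes the number `η * x + ω` (`a` in the place of `x`) not divisible by `q` -/
def Adm (η ω : ℤ) (m : ℕ) (E : ℕ → Finset ℕ) : Prop :=
  ∀ q : ℕ, q.Prime → (E q).card ≤ m ∧ ∃ a < q, a ∉ E q ∧ ¬ (q : ℤ) ∣ η * a + ω

/-- the polynomials and the classes -/
noncomputable def sysE (η ω : ℤ) (m : ℕ) (E : ℕ → Finset ℕ) (hE : Adm η ω m E) : PE 1 m 1 where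
  f := ![C η * X + C ω]
  E := E
  deg := by
    rw [Fin.sum_univ_one]
    simp only [Matrix.cons_val]
    have d0 : (C η * X + C ω : ℤ[X]).natDegree ≤ 1 := by compute_degree
    omega
  adm := by
    intro q hq
    obtain ⟨h1, a, ha, haE, h2⟩ := hE q hq
    refine ⟨h1, a, ha, haE, fun j => ?_⟩
    fin_cases j
    · simpa using h2

lemma good_of {η ω : ℤ} {m B : ℕ} {E : ℕ → Finset ℕ} (hE : Adm η ω m E) {κ M : ℝ} (hM : (2 : ℝ) ≤ M)
    (hh : |(η : ℝ)| ≤ M ^ B ∧ |(ω : ℝ)| ≤ M ^ B) {x : ℤ} (h : Near (B + 1) (sysE η ω m E hE) κ M x) (hx : (x : ℝ) ≤ M) :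
    Good η ω (M ^ κ) ⌊((B + 1 : ℕ) + (1 : ℕ) + 1 : ℝ) / κ⌋₊ E x := by
  obtain ⟨h0, h12⟩ := h
  obtain ⟨h1, h2⟩ := h12 (by
    intro j
    have hB : (1 : ℝ) ≤ M ^ B := one_le_pow₀ (by linarith)
    have hBM : (2 : ℝ) * M ^ B ≤ M ^ (B + 1) := by
      rw [pow_succ]
      nlinarith
    obtain ⟨k0, k1⟩ := hh
    fin_cases j
    · refine cb_mono (cb_add (cb_CX η) (cb_C ω)) ?_
      push_cast
      norm_num
      linarith) hx
  refine ⟨h0, ?_, h2⟩
  · simpa [sysE, Almost, Pool.Agent.Q46.SL.Almost] using h1 0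

/-- the Fermat quotient: the least residue of `(n^(p-1) - 1) / p` modulo `p` -/
def fermatQuotient (p n : ℕ) : ℕ := (n ^ (p - 1) - 1) / p % p

/-- `η x + ω` is almost prime for many integers `x` and for their Fermat quotients. -/
theorem result (B m : ℕ) (ε : ℝ) (hε : 0 < ε) (hε1 : ε ≤ 1) :
    ∃ κ : ℝ, 0 < κ ∧ ∃ cc : ℝ, 0 < cc ∧ ∃ R p₀ : ℕ, ∀ p : ℕ, p₀ ≤ p → p.Prime → ∀ η ω : ℤ, |(η : ℝ)| ≤ ((p : ℝ) ^ 2) ^ B → |(ω : ℝ)| ≤ ((p : ℝ) ^ 2) ^ B → ∀ E : ℕ → Finset ℕ, Adm η ω m E → ∀ A1 N1 A2 N2 : ℕ, A1 + N1 ≤ p ^ 2 → A2 + N2 ≤ p → (p : ℝ) ^ (2 + ε) ≤ (N1 : ℝ) * N2 →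
      ∃ G : Finset ℕ, cc * ((N1 : ℝ) * N2 / p) / Real.log ((p : ℝ) ^ 2) ^ (2 * (m + 1)) ≤ G.card ∧
        ∀ x ∈ G, (A1 ≤ x ∧ x < A1 + N1) ∧ ¬ p ∣ x ∧ (A2 ≤ fermatQuotient p x ∧ fermatQuotient p x < A2 + N2) ∧
          Good η ω (((p : ℝ) ^ 2) ^ κ) R E x ∧ Good η ω (((p : ℝ) ^ 2) ^ κ) R E (fermatQuotient p x) := by
  obtain ⟨κ, hκ, cc, hcc, p₀, h⟩ := Pool.Agent.Q46.SL.fermat_quotients (Near (B + 1) : PE 1 m 1 → ℝ → ℝ → ℤ → Prop)
    (lg (m + 1)) (fun r _ => csN 1 m 1 (B + 1) r) ε hε hε1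
  refine ⟨κ, hκ, cc, hcc, ⌊((B + 1 : ℕ) + (1 : ℕ) + 1 : ℝ) / κ⌋₊, max 2 p₀, ?_⟩
  intro p hp hpp η ω t0 t1 E hE A1 N1 A2 N2 hA1 hA2 hN
  have hpr0 : (2 : ℝ) ≤ p := by exact_mod_cast (le_max_left _ _).trans hp
  have hpr1 : (1 : ℝ) ≤ p := by exact_mod_cast hpp.one_lt.le
  have hpr2 : (p : ℝ) ≤ (p : ℝ) ^ 2 := by nlinarith
  have hpr : (2 : ℝ) ≤ (p : ℝ) ^ 2 := by linarith
  obtain ⟨G, hG, hG2⟩ := h p ((le_max_right _ _).trans hp) (sysE η ω m E hE) hpp A1 N1 A2 N2 hA1 hA2 hN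
  refine ⟨G, le_trans (cnt le_rfl (by positivity) (Real.log_nonneg (by linarith)) _ _) hG, ?_⟩
  intro x hx
  obtain ⟨a1, a2, a3, a4, a5⟩ := hG2 x hx
  refine ⟨a1, a2, a3, good_of hE hpr ⟨t0, t1⟩ a4 ?_, good_of hE hpr ⟨t0, t1⟩ a5 ?_⟩
  · exact_mod_cast (by omega : x ≤ p ^ 2)
  · refine le_trans ?_ hpr2
    exact_mod_cast (Nat.mod_lt _ hpp.pos).le

end Pool.Agent.Results.MP_42948a_nt.FermatQuotients
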