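import Pool.Agent.Y882.EHF

/-!
# Chowla's bound `p(d, c(d)) < d ^ (1 + ε)` for separated residue systems

A residue system `c` assigns a class `c(d)` to every modulus `d`; the maximum `p(d)` of the problem is
`p(d, c(d))` for a system `c` which picks the worst class of every modulus. We show: in every family
of residue systems any two of which coincide for at most `D ^ ε / (log D) ^ B` moduli `d ≤ 2 D`, all but at
most `D ^ (1 - ε) (log D) ^ B` members satisfy Chowla's bound for almost all `d ∈ (D, 2 D]` (for `ε > 1`,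
there are no exceptions). This applies to the systems `d ↦ a u(d) + v(d)`, `a ≤ D ^ K`, with ARBITRARY `u`, `v`,
`u(d)` prime to `d`: for instance, to the translates and to the multiples of the system of the worst
classes, to the fixed classes `a`, and to the fractions `a / b` with a fixed denominator `b`.

Proof. The Elliott-Halberstam bound for separated residue systems (starting files,
`Pool.Agent.Y882.EHF.few`, `few_affine`) at `x = D ^ (1 + ε)`, and the prime number theorem: a class without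
primes up to `x` has an error `π(x) / φ(d)`.
-/

set_option autoImplicit false

namespace Pool.Agent.Results.MP_42948a_nt.SeparatedResidueSystems

open Finset Filter

/-- The number of the moduli `1 ≤ d ≤ Q` with `c(d) ≡ c'(d) (mod d)`. -/
def coincidences (c c' : ℕ → ℕ) (Q : ℕ) : ℕ := ((Icc 1 Q).filter (fun d => c d ≡ c' d [MOD d])).card

open Classical in
/-- The moduli `D < d ≤ 2 D` for which `c(d)` is prime to `d` and every prime `p ≡ c(d) (mod d)` is at
least `d ^ (1 + ε)`. -/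
noncomputable def bad (ε : ℝ) (D : ℕ) (c : ℕ → ℕ) : Finset ℕ :=
  (Ioc D (2 * D)).filter (fun d => (c d).Coprime d ∧
    ∀ p : ℕ, p.Prime → p ≡ c d [MOD d] → (d : ℝ) ^ (1 + ε) ≤ p)

open Pool.Agent.TH926.EH (pc E)
open Pool.Agent.Y882.EHF (S)

lemma pc_lower : ∃ N₀ : ℕ, ∀ N : ℕ, N₀ ≤ N → (N : ℝ) / (4 * Real.log N) ≤ pc N := by
  obtain ⟨C, hC⟩ := Pool.Agent.H442R2.EHI.pnt_err 2
  have ev : ∀ᶠ X : ℝ in atTop, 4 * |C| ≤ Real.log X :=
    Real.tendsto_log_atTop.eventually_ge_atTop _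
  have evN := tendsto_natCast_atTop_atTop (R := ℝ) |>.eventually ev
  obtain ⟨x2, hx2⟩ := eventually_atTop.1 evN
  refine ⟨max 3 x2, fun N hN => ?_⟩
  have hN3 : 3 ≤ N := (le_max_left _ _).trans hN
  have hx := hx2 N ((le_max_right _ _).trans hN)
  have hN1 : (3 : ℝ) ≤ N := by exact_mod_cast hN3
  have hl1 : 1 ≤ Real.log N := by
    rw [Real.le_log_iff_exp_le (by linarith)]
    have := Real.exp_one_lt_d9
    linarith
  have h1 := (abs_le.1 (hC N (by omega))).1
  have h2 : ((N : ℝ) - 1) / Real.log N ≤ Pool.Agent.H442R2.EHI.lis N := by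
    unfold Pool.Agent.H442R2.EHI.lis
    have h3 : ∑ _n ∈ Icc 2 N, 1 / Real.log N ≤ ∑ n ∈ Icc 2 N, 1 / Real.log n := by
      apply sum_le_sum
      intro n hn
      rw [mem_Icc] at hn
      have hn2 : (2 : ℝ) ≤ n := by exact_mod_cast hn.1
      have : 0 < Real.log n := Real.log_pos (by linarith)
      apply one_div_le_one_div_of_le this
      apply Real.log_le_log (by linarith)
      exact_mod_cast hn.2
    rw [sum_const, Nat.card_Icc, nsmul_eq_mul] at h3
    have h4 : (((N + 1 - 2 : ℕ)) : ℝ) = (N : ℝ) - 1 := by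
      rw [show N + 1 - 2 = N - 1 by omega, Nat.cast_sub (by omega)]
      push_cast
      ring
    rw [h4] at h3
    calc ((N : ℝ) - 1) / Real.log N = ((N : ℝ) - 1) * (1 / Real.log N) := by ring
      _ ≤ _ := h3
  have h5 : C * N / Real.log N ^ 2 ≤ N / (4 * Real.log N) := by
    rw [div_le_div_iff₀ (by positivity) (by positivity)]
    have : C ≤ |C| := le_abs_self C
    have h6 : 4 * C ≤ Real.log N := by linarith
    have h7 : (4 * C) * (N * Real.log N) ≤ Real.log N * (N * Real.log N) := by gcongr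
    nlinarith [h7]
  have h8 : (N : ℝ) / (4 * Real.log N) + N / (4 * Real.log N) ≤ ((N : ℝ) - 1) / Real.log N := by
    rw [← add_div, div_le_div_iff₀ (by positivity) (by positivity)]
    nlinarith
  unfold pc
  linarith

/-- many bad moduli make the total error large -/
lemma bad_total (ε : ℝ) (hε : 0 < ε) (U : ℕ) : ∃ D₀ : ℕ, ∀ D : ℕ, D₀ ≤ D → ∀ c : ℕ → ℕ,
    D / Real.log D ^ U < ((bad ε D c).card : ℝ) →
    (⌊(D : ℝ) ^ (1 + ε)⌋₊ : ℝ) / Real.log ⌊(D : ℝ) ^ (1 + ε)⌋₊ ^ (U + 2) <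
      S ⌊(D : ℝ) ^ (1 + ε)⌋₊ (2 * D) c := by
  classical
  obtain ⟨N₀, hN₀⟩ := pc_lower
  have ev : ∀ᶠ X : ℝ in atTop, 8 ≤ Real.log X := Real.tendsto_log_atTop.eventually_ge_atTop _
  have evN := tendsto_natCast_atTop_atTop (R := ℝ) |>.eventually ev
  obtain ⟨x2, hx2⟩ := eventually_atTop.1 evN
  refine ⟨max (max 3 N₀) x2, fun D hD c hb => ?_⟩
  have hD3 : 3 ≤ D := (le_max_left _ _).trans ((le_max_left _ _).trans hD)
  have hDN : N₀ ≤ D := (le_max_right _ _).trans ((le_max_left _ _).trans hD)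
  have hDx : x2 ≤ D := (le_max_right _ _).trans hD
  have hD1 : (3 : ℝ) ≤ D := by exact_mod_cast hD3
  have hD0 : (0 : ℝ) < D := by linarith
  set N : ℕ := ⌊(D : ℝ) ^ (1 + ε)⌋₊ with hN
  have hDle : D ≤ N := by
    rw [hN]
    apply Nat.le_floor
    calc (D : ℝ) = (D : ℝ) ^ (1 : ℝ) := (Real.rpow_one _).symm
      _ ≤ (D : ℝ) ^ (1 + ε) := Real.rpow_le_rpow_of_exponent_le (by linarith) (by linarith)
  have hDleR : (D : ℝ) ≤ N := by exact_mod_cast hDle
  have hl8 : 8 ≤ Real.log D := hx2 D hDx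
  have hlN : Real.log D ≤ Real.log N := Real.log_le_log hD0 hDleR
  have hpc := hN₀ N (hDN.trans hDle)
  have hN0 : (0 : ℝ) < N := by linarith
  -- each bad modulus contributes
  have hE : ∀ d ∈ bad ε D c, (N : ℝ) / (8 * D * Real.log N) ≤ E N d (c d) := by
    intro d hd
    unfold bad at hd
    rw [mem_filter, mem_Ioc] at hd
    obtain ⟨⟨hd1, hd2⟩, hcop, hp⟩ := hd
    have hz : Pool.Agent.H442R2.EHI.piAP N d (c d) = 0 := by
      unfold Pool.Agent.H442R2.EHI.piAP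
      have : (Icc 1 N).filter (fun p : ℕ => p.Prime ∧ p ≡ c d [MOD d]) = ∅ := by
        rw [filter_eq_empty_iff]
        intro p hpI hpp
        rw [mem_Icc] at hpI
        have h1 := hp p hpp.1 hpp.2
        have h2 : (p : ℝ) ≤ (D : ℝ) ^ (1 + ε) := by
          have : (p : ℝ) ≤ N := by exact_mod_cast hpI.2
          exact this.trans (Nat.floor_le (by positivity))
        have h3 : (D : ℝ) ^ (1 + ε) < (d : ℝ) ^ (1 + ε) := by
          apply Real.rpow_lt_rpow hD0.le _ (by linarith)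
          exact_mod_cast hd1
        linarith
      simp [this]
    unfold E
    rw [hz, zero_sub, abs_neg]
    have hφ : (0 : ℝ) < Nat.totient d := by
      exact_mod_cast Nat.totient_pos.2 (by omega)
    have hφ2 : (Nat.totient d : ℝ) ≤ 2 * D := by
      have : Nat.totient d ≤ 2 * D := (Nat.totient_le d).trans hd2
      exact_mod_cast this
    have hpc0 : 0 ≤ pc N := by unfold pc; positivity
    rw [abs_of_nonneg (by positivity)]
    calc (N : ℝ) / (8 * D * Real.log N) = (N / (4 * Real.log N)) / (2 * D) := by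
          rw [div_div]; congr 1; ring
      _ ≤ pc N / (2 * D) := by gcongr
      _ ≤ pc N / Nat.totient d := by gcongr
  have hsum : (bad ε D c).card * ((N : ℝ) / (8 * D * Real.log N)) ≤ S N (2 * D) c := by
    unfold S
    calc (bad ε D c).card * ((N : ℝ) / (8 * D * Real.log N))
        = ∑ _d ∈ bad ε D c, (N : ℝ) / (8 * D * Real.log N) := by rw [sum_const, nsmul_eq_mul]
      _ ≤ ∑ d ∈ bad ε D c, E N d (c d) := sum_le_sum hE
      _ ≤ _ := by
          apply sum_le_sum_of_subset_of_nonneg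
          · intro d hd
            unfold bad at hd
            rw [mem_filter, mem_Ioc] at hd
            rw [mem_filter, mem_Icc]
            exact ⟨⟨by omega, hd.1.2⟩, hd.2.1⟩
          · intro d _ _
            unfold E
            positivity
  refine lt_of_lt_of_le ?_ hsum
  have hl0 : 0 < Real.log D := by linarith
  have hlN0 : 0 < Real.log N := by linarith
  calc (N : ℝ) / Real.log N ^ (U + 2) = N / (Real.log N * (Real.log N * Real.log N ^ U)) := by
        congr 1; ring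
    _ ≤ N / (8 * (Real.log N * Real.log D ^ U)) := by
        apply div_le_div_of_nonneg_left hN0.le (by positivity)
        have h1 : Real.log D ^ U ≤ Real.log N ^ U := by gcongr
        calc 8 * (Real.log N * Real.log D ^ U) ≤ Real.log N * (Real.log N * Real.log N ^ U) := by
              gcongr
              linarith
          _ = _ := rfl
    _ = (D / Real.log D ^ U) * (N / (8 * D * Real.log N)) := by
        field_simp
    _ < _ := by
        apply mul_lt_mul_of_pos_right hb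
        positivity

/-- growth facts -/
lemma growth (ε : ℝ) (hε : 0 < ε) (B : ℕ) (M : ℕ) : ∃ D₀ : ℕ, ∀ D : ℕ, D₀ ≤ D →
    3 ≤ D ∧ M ≤ ⌊(D : ℝ) ^ (1 + ε)⌋₊ ∧ D ≤ ⌊(D : ℝ) ^ (1 + ε)⌋₊ ∧
    (D : ℝ) ^ (1 + ε) ≤ 2 * (⌊(D : ℝ) ^ (1 + ε)⌋₊ : ℝ) ∧
    (⌊(D : ℝ) ^ (1 + ε)⌋₊ : ℝ) ≤ (D : ℝ) ^ (1 + ε) ∧
    1 ≤ Real.log D ∧
    8 * Real.log ⌊(D : ℝ) ^ (1 + ε)⌋₊ ^ B ≤ Real.log D ^ (B + 1) ∧
    4 * Real.log ⌊(D : ℝ) ^ (1 + ε)⌋₊ ^ B ≤ (D : ℝ) ^ (ε / 2) ∧
    0 ≤ Real.log ⌊(D : ℝ) ^ (1 + ε)⌋₊ := by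
  have ev : ∀ᶠ X : ℝ in atTop, 8 * (1 + ε) ^ B ≤ Real.log X :=
    Real.tendsto_log_atTop.eventually_ge_atTop _
  have evN := tendsto_natCast_atTop_atTop (R := ℝ) |>.eventually ev
  obtain ⟨x2, hx2⟩ := eventually_atTop.1 evN
  have ev' : ∀ᶠ X : ℝ in atTop, (4 * (1 + ε) ^ B) * Real.log X ^ B ≤ X ^ (ε / 2) :=
    Pool.Agent.H398R2.BV.ev_log _ B (ε / 2) (by positivity)
  have evN' := tendsto_natCast_atTop_atTop (R := ℝ) |>.eventually ev'
  obtain ⟨x3, hx3⟩ := eventually_atTop.1 evN'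
  refine ⟨max (max 3 M) (max x2 x3), fun D hD => ?_⟩
  have hD3 : 3 ≤ D := (le_max_left _ _).trans ((le_max_left _ _).trans hD)
  have hDM : M ≤ D := (le_max_right _ _).trans ((le_max_left _ _).trans hD)
  have hDx : x2 ≤ D := (le_max_left _ _).trans ((le_max_right _ _).trans hD)
  have hDy : x3 ≤ D := (le_max_right _ _).trans ((le_max_right _ _).trans hD)
  have hD1 : (3 : ℝ) ≤ D := by exact_mod_cast hD3
  have hD0 : (0 : ℝ) < D := by linarith
  have hDp : (D : ℝ) ≤ (D : ℝ) ^ (1 + ε) := by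
    calc (D : ℝ) = (D : ℝ) ^ (1 : ℝ) := (Real.rpow_one _).symm
      _ ≤ (D : ℝ) ^ (1 + ε) := Real.rpow_le_rpow_of_exponent_le (by linarith) (by linarith)
  have hDle : D ≤ ⌊(D : ℝ) ^ (1 + ε)⌋₊ := Nat.le_floor hDp
  have hDleR : (D : ℝ) ≤ ⌊(D : ℝ) ^ (1 + ε)⌋₊ := by exact_mod_cast hDle
  have hfl : (⌊(D : ℝ) ^ (1 + ε)⌋₊ : ℝ) ≤ (D : ℝ) ^ (1 + ε) := Nat.floor_le (by positivity)
  have hfl2 : (D : ℝ) ^ (1 + ε) < ⌊(D : ℝ) ^ (1 + ε)⌋₊ + 1 := Nat.lt_floor_add_one _
  have hl1 : 1 ≤ Real.log D := by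
    rw [Real.le_log_iff_exp_le (by linarith)]
    have := Real.exp_one_lt_d9
    linarith
  have hlN : Real.log ⌊(D : ℝ) ^ (1 + ε)⌋₊ ≤ (1 + ε) * Real.log D := by
    calc Real.log ⌊(D : ℝ) ^ (1 + ε)⌋₊ ≤ Real.log ((D : ℝ) ^ (1 + ε)) :=
          Real.log_le_log (by linarith) hfl
      _ = _ := Real.log_rpow hD0 _
  have hlN0 : 0 ≤ Real.log ⌊(D : ℝ) ^ (1 + ε)⌋₊ := Real.log_natCast_nonneg _
  have hpow : Real.log ⌊(D : ℝ) ^ (1 + ε)⌋₊ ^ B ≤ (1 + ε) ^ B * Real.log D ^ B := by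
    rw [← mul_pow]
    gcongr
  refine ⟨hD3, hDM.trans hDle, hDle, by linarith, hfl, hl1, ?_, ?_, hlN0⟩
  · calc 8 * Real.log ⌊(D : ℝ) ^ (1 + ε)⌋₊ ^ B ≤ 8 * ((1 + ε) ^ B * Real.log D ^ B) := by gcongr
      _ = (8 * (1 + ε) ^ B) * Real.log D ^ B := by ring
      _ ≤ Real.log D * Real.log D ^ B := by
          apply mul_le_mul_of_nonneg_right (hx2 D hDx) (by positivity)
      _ = _ := by rw [pow_succ]; ring
  · calc 4 * Real.log ⌊(D : ℝ) ^ (1 + ε)⌋₊ ^ B ≤ 4 * ((1 + ε) ^ B * Real.log D ^ B) := by gcongr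
      _ = (4 * (1 + ε) ^ B) * Real.log D ^ B := by ring
      _ ≤ _ := hx3 D hDy

lemma concl {ε : ℝ} {D B N : ℕ} {n : ℝ} (hD : 3 ≤ D)
    (h2 : (D : ℝ) ^ (1 + ε) ≤ 2 * (N : ℝ)) (h8 : 8 * Real.log N ^ B ≤ Real.log D ^ (B + 1))
    (h : n ≤ ((2 * D : ℕ) : ℝ) ^ 2 / N * Real.log N ^ B) :
    n ≤ (D : ℝ) ^ (1 - ε) * Real.log D ^ (B + 1) := by
  have hD0 : (0 : ℝ) < D := by exact_mod_cast (by omega : 0 < D)
  have hp : (0 : ℝ) < (D : ℝ) ^ (1 + ε) := by positivity
  have hN0 : (0 : ℝ) < N := by linarith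
  refine h.trans ?_
  have h3 : ((2 * D : ℕ) : ℝ) ^ 2 / N ≤ 8 * (D : ℝ) ^ (1 - ε) := by
    rw [div_le_iff₀ hN0]
    push_cast
    have h4 : (D : ℝ) ^ (1 - ε) * (D : ℝ) ^ (1 + ε) = (D : ℝ) ^ 2 := by
      rw [← Real.rpow_add hD0, ← Real.rpow_natCast]
      congr 1
      push_cast
      ring
    have h5 : 0 < (D : ℝ) ^ (1 - ε) := by positivity
    have h6 : (D : ℝ) ^ (1 - ε) * (D : ℝ) ^ (1 + ε) ≤ (D : ℝ) ^ (1 - ε) * (2 * N) := by gcongr
    rw [h4] at h6
    nlinarith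
  calc ((2 * D : ℕ) : ℝ) ^ 2 / N * Real.log N ^ B ≤ (8 * (D : ℝ) ^ (1 - ε)) * Real.log N ^ B := by
        gcongr
    _ = (D : ℝ) ^ (1 - ε) * (8 * Real.log N ^ B) := by ring
    _ ≤ _ := by gcongr

/-- **Chowla's bound for separated residue systems.** (i) For all `ε > 0` and `U` there is `B` such
that for every large `D` and every finite family of residue systems any two of which coincide for at
most `D ^ ε / (log D) ^ B` of the moduli `d ≤ 2 D`, at most `D ^ (1 - ε) (log D) ^ B` members `c` have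
more than `D / (log D) ^ U` moduli `d ∈ (D, 2 D]` with `c(d)` prime to `d` and `p(d, c(d)) ≥ d ^ (1 + ε)`.

(ii) For all `ε > 0`, `K` and `U` there is `B` such that for every large `D` and ALL `u`, `v` with `u(d)`
prime to `d`, at most `D ^ (1 - ε) (log D) ^ B` of the integers `a ≤ D ^ K` are such that more than
`D / (log D) ^ U` moduli `d ∈ (D, 2 D]` have `c(d) = a u(d) + v(d)` prime to `d` and
`p(d, c(d)) ≥ d ^ (1 + ε)`. -/
theorem result (ε : ℝ) (hε : 0 < ε) (U : ℕ) :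
    (∃ B D₀ : ℕ, ∀ D : ℕ, D₀ ≤ D → ∀ (ι : Type) (I : Finset ι) (c : ι → ℕ → ℕ),
      (∀ i ∈ I, ∀ j ∈ I, i ≠ j →
        (coincidences (c i) (c j) (2 * D) : ℝ) * Real.log D ^ B ≤ (D : ℝ) ^ ε) →
      (∀ i ∈ I, D / Real.log D ^ U < ((bad ε D (c i)).card : ℝ)) →
      (I.card : ℝ) ≤ (D : ℝ) ^ (1 - ε) * Real.log D ^ B) ∧
    (∀ K : ℝ, ∃ B D₀ : ℕ, ∀ D : ℕ, D₀ ≤ D → ∀ u v : ℕ → ℕ, (∀ d, 1 ≤ d → (u d).Coprime d) →
      ∀ A : Finset ℕ, (∀ a ∈ A, (a : ℝ) ≤ (D : ℝ) ^ K ∧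
        D / Real.log D ^ U < ((bad ε D (fun d => a * u d + v d)).card : ℝ)) →
      (A.card : ℝ) ≤ (D : ℝ) ^ (1 - ε) * Real.log D ^ B) := by
  obtain ⟨D₁, hD₁⟩ := bad_total ε hε U
  constructor
  · obtain ⟨B, N₀, H⟩ := Pool.Agent.Y882.EHF.few (U + 2)
    obtain ⟨D₂, hD₂⟩ := growth ε hε B N₀
    refine ⟨B + 1, max D₁ D₂, fun D hD ι I c hI hb => ?_⟩
    obtain ⟨g1, g2, g3, g4, g5, g6, g7, g8, g9⟩ := hD₂ D ((le_max_right _ _).trans hD)
    have hb' := fun i hi => hD₁ D ((le_max_left _ _).trans hD) (c i) (hb i hi)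
    set N : ℕ := ⌊(D : ℝ) ^ (1 + ε)⌋₊ with hN
    have hD0 : (0 : ℝ) < D := by exact_mod_cast (by omega : 0 < D)
    have hD1 : (1 : ℝ) ≤ D := by exact_mod_cast (by omega : 1 ≤ D)
    have e1 : (D : ℝ) * (D : ℝ) ^ ε = (D : ℝ) ^ (1 + ε) := by
      rw [Real.rpow_add hD0, Real.rpow_one]
    have e2 : (D : ℝ) ^ (ε / 2) ≤ (D : ℝ) ^ ε :=
      Real.rpow_le_rpow_of_exponent_le hD1 (by linarith)
    apply concl g1 g4 g7
    apply H N g2 (2 * D) _ ι I c _ hb'
    · push_cast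
      have h1 : 4 * Real.log N ^ B ≤ (D : ℝ) ^ ε := g8.trans e2
      have h2 : (D : ℝ) * (4 * Real.log N ^ B) ≤ (D : ℝ) * (D : ℝ) ^ ε := by gcongr
      rw [e1] at h2
      linarith
    · intro i hi j hj hij
      have h1 := hI i hi j hj hij
      have h2 : (Pool.Agent.Y882.EHF.coinc (c i) (c j) (2 * D) : ℝ) =
        (coincidences (c i) (c j) (2 * D) : ℝ) := rfl
      rw [h2]
      push_cast
      have h3 : (coincidences (c i) (c j) (2 * D) : ℝ) * (8 * Real.log N ^ B) ≤ (D : ℝ) ^ ε := by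
        refine le_trans ?_ h1
        gcongr
      have h4 : (D : ℝ) * ((coincidences (c i) (c j) (2 * D) : ℝ) * (8 * Real.log N ^ B)) ≤
          (D : ℝ) * (D : ℝ) ^ ε := by gcongr
      rw [e1] at h4
      have h5 : 0 ≤ (coincidences (c i) (c j) (2 * D) : ℝ) * (2 * D * Real.log N ^ B) := by
        positivity
      nlinarith
  · intro K
    obtain ⟨B, N₀, H⟩ := Pool.Agent.Y882.EHF.few_affine (U + 2) (ε / (2 * (1 + ε))) (max K 0)
      (by positivity) (le_max_right _ _)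
    obtain ⟨D₂, hD₂⟩ := growth ε hε B N₀
    have ev : ∀ᶠ X : ℝ in atTop, 4 ≤ X ^ (ε / 2) :=
      (tendsto_rpow_atTop (by positivity : 0 < ε / 2)).eventually_ge_atTop _
    have evN := tendsto_natCast_atTop_atTop (R := ℝ) |>.eventually ev
    obtain ⟨x2, hx2⟩ := eventually_atTop.1 evN
    refine ⟨B + 1, max (max D₁ D₂) x2, fun D hD u v hu A hA => ?_⟩
    have hDx : x2 ≤ D := (le_max_right _ _).trans hD
    obtain ⟨g1, g2, g3, g4, g5, g6, g7, g8, g9⟩ :=
      hD₂ D ((le_max_right _ _).trans ((le_max_left _ _).trans hD))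
    have hb' := fun a ha => hD₁ D ((le_max_left _ _).trans ((le_max_left _ _).trans hD)) _ (hA a ha).2
    set N : ℕ := ⌊(D : ℝ) ^ (1 + ε)⌋₊ with hN
    have hD0 : (0 : ℝ) < D := by exact_mod_cast (by omega : 0 < D)
    have hD1 : (1 : ℝ) ≤ D := by exact_mod_cast (by omega : 1 ≤ D)
    have hN1 : (1 : ℝ) ≤ N := by
      have : (D : ℝ) ≤ N := by exact_mod_cast g3
      linarith
    apply concl g1 g4 g7
    apply H N g2 (2 * D) _ u v hu A
    · intro a ha
      refine ⟨?_, hb' a ha⟩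
      calc (a : ℝ) ≤ (D : ℝ) ^ K := (hA a ha).1
        _ ≤ (D : ℝ) ^ (max K 0) := Real.rpow_le_rpow_of_exponent_le hD1 (le_max_left _ _)
        _ ≤ (N : ℝ) ^ (max K 0) := by
            apply Real.rpow_le_rpow hD0.le _ (le_max_right _ _)
            exact_mod_cast g3
    · push_cast
      have h4 := hx2 D hDx
      -- N ≥ D^(1+ε)/2
      have h5 : ((D : ℝ) ^ (1 + ε) / 2) ^ (1 - ε / (2 * (1 + ε))) ≤
          (N : ℝ) ^ (1 - ε / (2 * (1 + ε))) := by
        apply Real.rpow_le_rpow (by positivity) (by linarith)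
        have : ε / (2 * (1 + ε)) ≤ 1 := by
          rw [div_le_one (by positivity)]
          linarith
        linarith
      refine le_trans ?_ h5
      rw [Real.div_rpow (by positivity) (by norm_num), ← Real.rpow_mul hD0.le]
      have h6 : (1 + ε) * (1 - ε / (2 * (1 + ε))) = 1 + ε / 2 := by
        field_simp
        ring
      rw [h6, Real.rpow_add hD0, Real.rpow_one]
      have h7 : (2 : ℝ) ^ (1 - ε / (2 * (1 + ε))) ≤ 2 := by
        calc (2 : ℝ) ^ (1 - ε / (2 * (1 + ε))) ≤ (2 : ℝ) ^ (1 : ℝ) := by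
              apply Real.rpow_le_rpow_of_exponent_le (by norm_num)
              have : 0 ≤ ε / (2 * (1 + ε)) := by positivity
              linarith
          _ = 2 := Real.rpow_one _
      rw [le_div_iff₀ (by positivity)]
      calc 2 * (D : ℝ) * (2 : ℝ) ^ (1 - ε / (2 * (1 + ε))) ≤ 2 * D * 2 := by gcongr
        _ = D * 4 := by ring
        _ ≤ D * (D : ℝ) ^ (ε / 2) := by gcongr

end Pool.Agent.Results.MP_42948a_nt.SeparatedResidueSystems
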