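import Pool.Agent.Q48.RD.One

/-!
# Almost primes in several residue classes modulo `d` at once, with a common multiplier with restricted digits

Let `a 1, …, a J` be positive integers below the modulus `d`, such that no prime divides, for every `k`, one of the numbers `a j + k d`.
For `J = 1` this means that `a` is prime to `d`; in general it means that the `a j` are prime to `d` and do not cover all residue classes
modulo a prime which does not divide `d`. We consider the `k` for which all numbers `a j + k d` are almost primes.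

Let `g ≥ 2` be a base and `K` a large number of digits. For every `i < K` let `A i` be an arbitrary set of digits, such that the number
`|A 0| ⋯ |A (K - 1)|` of the integers `t < g ^ K` whose `i`-th digit belongs to `A i` for all `i < K` is at least `exp (- c K) g ^ K`
(`Rich`). Let `d`, `N ≤ g ^ (E K)` and the `a j < d` be arbitrary. So the length `g ^ K` of the interval of the `k = N + t` with these
`t` may be an arbitrarily small power of `d`.

For at least `κ V |A 0| ⋯ |A (K - 1)|` of the `k = N + t`, and at least `κ |A 0| ⋯ |A (K - 1)| / K ^ J`, all numbers `a j + k d` have at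
most `r` prime factors, all larger than `g ^ (K / r)`, unless there is an obvious obstruction (no digit `u` in `A 0` such that all
`a j + (N + u) d` are prime to `g`); and for at most `C V |A 0| ⋯ |A (K - 1)|` of them all `a j + k d` are primes. Here `V` is the product
of `1 - ν (p) / p` over the primes `p ≤ g ^ K`, where `ν (p)` is the number of the `k` modulo `p` such that `p` divides one of the numbers
`a j + k d`, the expected order. The constants do not depend on `d`, the `a j`, `N` and the sets `A i`.

For `N = 0` and `g ^ K ≤ d ^ ε` this gives almost primes `< d ^ (1 + ε)` in every class prime to `d`, and in the classes `a 1, …, a J` for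
the same multiple of `d`.
-/

set_option autoImplicit false

namespace Pool.Agent.Results.MP_42948a_nt.SeveralClasses

open Filter Finset
open Pool.Agent.Q315.RD Pool.Agent.Q48.RD

/-- No prime divides, for every `k`, one of the numbers `a j + k d`. -/
def Admissible {J : ℕ} (d : ℕ) (a : Fin J → ℕ) : Prop := ∀ p : ℕ, p.Prime → ∃ k : ℕ, ∀ j, ¬ p ∣ a j + k * d

/-- The product of `1 - ν (p) / p` over the primes `p ≤ y`, `ν (p)` the number of the zeros modulo `p` of the product of the
polynomials `a j + d X`. -/
noncomputable def V {J : ℕ} (d : ℕ) (a : Fin J → ℕ) (y : ℕ) : ℝ := linDensity (fun _ => (d : ℤ)) (fun j => (a j : ℤ)) y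

/-- Every class prime to the modulus is admissible. -/
lemma admissible_one (d a : ℕ) (h : a.Coprime d) : Admissible d (fun _ : Fin 1 => a) := by
  intro p hp
  by_cases hpa : p ∣ a
  · refine ⟨1, fun _ h1 => ?_⟩
    have h2 : p ∣ d := by simpa using (Nat.dvd_add_right hpa).1 h1
    exact hp.one_lt.ne' (Nat.dvd_one.1 (h ▸ Nat.dvd_gcd hpa h2))
  · exact ⟨0, fun _ h1 => hpa (by simpa using h1)⟩

/-- **Almost primes in several residue classes modulo `d` at once, with a common multiplier with restricted digits.** -/
theorem result (J E : ℕ) :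
    (∀ d a : ℕ, a.Coprime d → Admissible d (fun _ : Fin 1 => a)) ∧
    ∃ c : ℝ, 0 < c ∧ ∃ r₀ : ℕ, 2 ≤ r₀ ∧ ∀ r : ℕ, r₀ ≤ r → ∀ g : ℕ, 2 ≤ g → ∃ κ C : ℝ, 0 < κ ∧ 0 < C ∧
      ∀ᶠ K : ℕ in atTop, ∀ (d : ℕ) (a : Fin J → ℕ) (N : ℕ), 1 ≤ d → d ≤ g ^ (E * K) → (∀ j, a j < d) → Admissible d a →
        N ≤ g ^ (E * K) → ∀ A : ℕ → Finset ℕ, Rich c g K A →
          ((∃ u ∈ A 0, ∀ j, (a j + (N + u) * d).Coprime g) →
            κ * V d a (g ^ K) * choices K A ≤ count g K A (fun t => ∀ j, AlmostPrime (g ^ K) r (a j + (N + t) * d)) ∧
            κ * choices K A / (K : ℝ) ^ J ≤ count g K A (fun t => ∀ j, AlmostPrime (g ^ K) r (a j + (N + t) * d))) ∧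
          (count g K A (fun t => ∀ j, (a j + (N + t) * d).Prime) : ℝ) ≤ C * V d a (g ^ K) * choices K A := by
  refine ⟨admissible_one, ?_⟩
  obtain ⟨c, hc, r₀, hr₀, h1⟩ := famLin' J E
  refine ⟨c, hc, r₀, hr₀, fun r hr g hg => ?_⟩
  obtain ⟨κ, C, hκ, hC, h2⟩ := h1 r hr g hg
  refine ⟨κ, C, hκ, hC, ?_⟩
  filter_upwards [h2] with K hK
  intro d a N hd1 hd ha hadm hN A hA
  exact hK (fun _ => (d : ℤ)) (fun j => (a j : ℤ)) N (fun j t => a j + (N + t) * d)
    (fun j => by
      rw [abs_of_nonneg (by positivity)]
      exact_mod_cast hd)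
    (fun j => by
      rw [abs_of_nonneg (by positivity)]
      exact_mod_cast (ha j).le.trans hd)
    hN
    (fun p hp => by
      obtain ⟨k, hk⟩ := hadm p hp
      refine ⟨k, fun j hj => hk j ?_⟩
      have e : (d : ℤ) * k + a j = ((a j + k * d : ℕ) : ℤ) := by push_cast; ring
      rw [e] at hj
      exact Int.natCast_dvd_natCast.1 hj)
    (fun t _ j => by push_cast; ring)
    (fun t _ j => by
      have : t ≤ (N + t) * d := by nlinarith
      omega) A hA

end Pool.Agent.Results.MP_42948a_nt.SeveralClasses
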